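import Pool.Agent.X229.Lucas

/-!
# A language with rational commutative characteristic series whose complement has none

Series on the free commutative monoid are `MvPowerSeries σ ℕ`.
-/

namespace Pool.Agent.Results.MP_2e66a2_lc.ComplementNotRational

open Pool.Agent.X229.Lucas

/-- The star `S* = ∑_{k ≥ 0} Sᵏ` of a series `S` with zero constant term. The powers `Sᵏ` with
`k > |m|` have zero coefficient at the monomial `m`, so the coefficient of `S*` at `m` is the
finite sum over `k ≤ |m|`. -/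
noncomputable def star {σ : Type} (S : MvPowerSeries σ ℕ) : MvPowerSeries σ ℕ :=
  fun m => ∑ k ∈ Finset.range (Finsupp.degree m + 1), MvPowerSeries.coeff m (S ^ k)

/-- Rational series on the free commutative monoid over `σ` with coefficients in `ℕ`: the
smallest family containing the series of finite support and closed under sum, Cauchy product
and the star of series with zero constant term. -/
inductive IsRat {σ : Type} : MvPowerSeries σ ℕ → Prop
  | fin (S : MvPowerSeries σ ℕ) : {m : σ →₀ ℕ | MvPowerSeries.coeff m S ≠ 0}.Finite → IsRat S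
  | add (S T : MvPowerSeries σ ℕ) : IsRat S → IsRat T → IsRat (S + T)
  | mul (S T : MvPowerSeries σ ℕ) : IsRat S → IsRat T → IsRat (S * T)
  | star (S : MvPowerSeries σ ℕ) : IsRat S → MvPowerSeries.constantCoeff S = 0 → IsRat (star S)

/-- The Parikh vector of a word. -/
noncomputable def parikh {σ : Type} (w : List σ) : σ →₀ ℕ :=
  (w.map (fun a => Finsupp.single a 1)).sum

/-- The characteristic series in commutative variables: the coefficient at `m` is the number of
words of `L` with Parikh vector `m`. -/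
noncomputable def chi {σ : Type} (L : Set (List σ)) : MvPowerSeries σ ℕ :=
  fun m => Set.ncard {w | w ∈ L ∧ parikh w = m}

/-! ### The star -/

section Star

variable {σ : Type}

theorem star_coeff {S : MvPowerSeries σ ℕ} (hS : MvPowerSeries.constantCoeff S = 0)
    (m : σ →₀ ℕ) {K : ℕ} (hK : Finsupp.degree m + 1 ≤ K) :
    MvPowerSeries.coeff m (star S) = ∑ k ∈ Finset.range K, MvPowerSeries.coeff m (S ^ k) := by
  show (∑ k ∈ Finset.range (Finsupp.degree m + 1), MvPowerSeries.coeff m (S ^ k)) = _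
  apply Finset.sum_subset (Finset.range_mono hK)
  intro k _ hk
  rw [Finset.mem_range, not_lt] at hk
  exact MvPowerSeries.coeff_eq_zero_of_constantCoeff_nilpotent (m := 1) (by rw [hS, pow_one])
    (by omega)

theorem star_eq {S : MvPowerSeries σ ℕ} (hS : MvPowerSeries.constantCoeff S = 0) :
    star S = 1 + S * star S := by
  classical
  ext m
  rw [map_add, MvPowerSeries.coeff_mul]
  have h1 : ∀ p ∈ Finset.HasAntidiagonal.antidiagonal m, MvPowerSeries.coeff p.1 S *
      MvPowerSeries.coeff p.2 (star S) = ∑ k ∈ Finset.range (Finsupp.degree m + 1),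
        MvPowerSeries.coeff p.1 S * MvPowerSeries.coeff p.2 (S ^ k) := by
    intro p hp
    rw [Finset.HasAntidiagonal.mem_antidiagonal] at hp
    have hd : Finsupp.degree p.2 ≤ Finsupp.degree m := by
      rw [← hp, map_add]; omega
    rw [star_coeff hS p.2 (K := Finsupp.degree m + 1) (by omega), Finset.mul_sum]
  rw [Finset.sum_congr rfl h1, Finset.sum_comm,
    star_coeff hS m (K := Finsupp.degree m + 1 + 1) (by omega), Finset.sum_range_succ']
  rw [add_comm]
  congr 1
  apply Finset.sum_congr rfl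
  intro k _
  rw [pow_succ', MvPowerSeries.coeff_mul]

end Star

/-! ### Closure properties in one variable over the integers -/

open PowerSeries in
/-- Nonnegative coefficients, eventually monotone along a period. -/
def Q (f : PowerSeries ℤ) : Prop :=
  (∀ n, 0 ≤ PowerSeries.coeff n f) ∧
    ∃ p n₀ : ℕ, 1 ≤ p ∧ ∀ n, n₀ ≤ n → PowerSeries.coeff n f ≤ PowerSeries.coeff (n + p) f

theorem iter_mono {f : PowerSeries ℤ} {p n₀ : ℕ}
    (h : ∀ n, n₀ ≤ n → PowerSeries.coeff n f ≤ PowerSeries.coeff (n + p) f) (k : ℕ) :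
    ∀ n, n₀ ≤ n → PowerSeries.coeff n f ≤ PowerSeries.coeff (n + k * p) f := by
  induction k with
  | zero => intro n _; simp
  | succ k ih =>
    intro n hn
    have h1 := ih n hn
    have h2 := h (n + k * p) (by omega)
    have e : n + (k + 1) * p = n + k * p + p := by ring
    rw [e]
    exact h1.trans h2

theorem Q_zero : Q 0 := ⟨by simp, 1, 0, le_rfl, by simp⟩

theorem Q_add {f g : PowerSeries ℤ} (hf : Q f) (hg : Q g) : Q (f + g) := by
  obtain ⟨f0, p, n1, hp, h1⟩ := hf
  obtain ⟨g0, q, n2, hq, h2⟩ := hg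
  refine ⟨fun n => by rw [map_add]; exact add_nonneg (f0 n) (g0 n), p * q, n1 + n2,
    Nat.mul_pos hp hq, ?_⟩
  intro n hn
  rw [map_add, map_add]
  have a1 := iter_mono h1 q n (by omega)
  have a2 := iter_mono h2 p n (by omega)
  rw [mul_comm q p] at a1
  exact add_le_add a1 a2

theorem Q_mul {f g : PowerSeries ℤ} (hf : Q f) (hg : Q g) : Q (f * g) := by
  obtain ⟨f0, p, n1, hp, h1⟩ := hf
  obtain ⟨g0, q, n2, hq, h2⟩ := hg
  refine ⟨fun n => ?_, p * q, n1 + n2, Nat.mul_pos hp hq, ?_⟩
  · rw [PowerSeries.coeff_mul]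
    exact Finset.sum_nonneg fun x _ => mul_nonneg (f0 _) (g0 _)
  · intro n hn
    have a1 : ∀ i, n1 ≤ i → PowerSeries.coeff i f ≤ PowerSeries.coeff (i + p * q) f := by
      intro i hi
      have := iter_mono h1 q i hi
      rwa [mul_comm q p] at this
    have a2 : ∀ i, n2 ≤ i → PowerSeries.coeff i g ≤ PowerSeries.coeff (i + p * q) g :=
      fun i hi => iter_mono h2 p i hi
    have hpq : 1 ≤ p * q := Nat.mul_pos hp hq
    set r := p * q with hr
    rw [PowerSeries.coeff_mul, PowerSeries.coeff_mul]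
    set φ : ℕ × ℕ → ℕ × ℕ := fun x => if n1 ≤ x.1 then (x.1 + r, x.2) else (x.1, x.2 + r) with hφ
    have hinj : Set.InjOn φ (Finset.HasAntidiagonal.antidiagonal n) := by
      rintro ⟨a, b⟩ _ ⟨c, d⟩ _ h
      simp only [hφ] at h
      split_ifs at h with u1 u2 u2
      · simp only [Prod.mk.injEq] at h ⊢; omega
      · simp only [Prod.mk.injEq] at h ⊢; omega
      · simp only [Prod.mk.injEq] at h ⊢; omega
      · simp only [Prod.mk.injEq] at h ⊢; omega
    calc ∑ x ∈ Finset.HasAntidiagonal.antidiagonal n, PowerSeries.coeff x.1 f * PowerSeries.coeff x.2 g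
        ≤ ∑ x ∈ Finset.HasAntidiagonal.antidiagonal n,
          PowerSeries.coeff (φ x).1 f * PowerSeries.coeff (φ x).2 g := by
          apply Finset.sum_le_sum
          rintro ⟨a, b⟩ hx
          rw [Finset.HasAntidiagonal.mem_antidiagonal] at hx
          simp only at hx
          simp only [hφ]
          split_ifs with u
          · exact mul_le_mul_of_nonneg_right (a1 a u) (g0 b)
          · exact mul_le_mul_of_nonneg_left (a2 b (by omega)) (f0 a)
      _ = ∑ y ∈ (Finset.HasAntidiagonal.antidiagonal n).image φ,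
          PowerSeries.coeff y.1 f * PowerSeries.coeff y.2 g := by
          rw [Finset.sum_image hinj]
      _ ≤ ∑ y ∈ Finset.HasAntidiagonal.antidiagonal (n + r),
          PowerSeries.coeff y.1 f * PowerSeries.coeff y.2 g := by
          apply Finset.sum_le_sum_of_subset_of_nonneg
          · intro y hy
            obtain ⟨⟨a, b⟩, hx, rfl⟩ := Finset.mem_image.1 hy
            rw [Finset.HasAntidiagonal.mem_antidiagonal] at hx ⊢
            simp only at hx
            simp only [hφ]
            split_ifs <;> simp only <;> omega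
          · intro y _ _
            exact mul_nonneg (f0 _) (g0 _)

theorem Q_star {f g : PowerSeries ℤ} (hf : Q f) (h0 : PowerSeries.coeff 0 f = 0)
    (hg : g = 1 + f * g) : Q g := by
  obtain ⟨f0, -⟩ := hf
  have hrec : ∀ n, PowerSeries.coeff n g = (if n = 0 then 1 else 0) +
      ∑ x ∈ Finset.HasAntidiagonal.antidiagonal n, PowerSeries.coeff x.1 f * PowerSeries.coeff x.2 g := by
    intro n
    conv_lhs => rw [hg]
    rw [map_add, PowerSeries.coeff_one, PowerSeries.coeff_mul]
  have g0 : ∀ n, 0 ≤ PowerSeries.coeff n g := by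
    intro n
    induction n using Nat.strong_induction_on with
    | _ n ih =>
      rw [hrec]
      apply add_nonneg
      · split_ifs <;> norm_num
      · apply Finset.sum_nonneg
        rintro ⟨a, b⟩ hx
        rw [Finset.HasAntidiagonal.mem_antidiagonal] at hx
        simp only at hx ⊢
        rcases Nat.eq_zero_or_pos a with ha | ha
        · rw [ha, h0, zero_mul]
        · exact mul_nonneg (f0 a) (ih b (by omega))
  refine ⟨g0, ?_⟩
  by_cases hz : ∀ d, PowerSeries.coeff d f = 0
  · refine ⟨1, 1, le_rfl, ?_⟩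
    intro n hn
    rw [hrec n, if_neg (by omega)]
    rw [Finset.sum_eq_zero (fun x _ => by rw [hz, zero_mul]), add_zero]
    exact g0 _
  · push Not at hz
    obtain ⟨d, hd⟩ := hz
    have hd0 : d ≠ 0 := by
      rintro rfl
      exact hd h0
    have hd1 : 1 ≤ PowerSeries.coeff d f := by
      have := f0 d
      omega
    refine ⟨d, 0, by omega, ?_⟩
    intro n _
    rw [hrec (n + d)]
    have h1 : PowerSeries.coeff d f * PowerSeries.coeff n g ≤
        ∑ x ∈ Finset.HasAntidiagonal.antidiagonal (n + d), PowerSeries.coeff x.1 f * PowerSeries.coeff x.2 g := by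
      have := Finset.single_le_sum
        (f := fun x : ℕ × ℕ => PowerSeries.coeff x.1 f * PowerSeries.coeff x.2 g)
        (s := Finset.HasAntidiagonal.antidiagonal (n + d)) (fun x _ => mul_nonneg (f0 _) (g0 _))
        (a := (d, n)) (by rw [Finset.HasAntidiagonal.mem_antidiagonal]; ring)
      exact this
    have h2 : PowerSeries.coeff n g ≤ PowerSeries.coeff d f * PowerSeries.coeff n g := by
      have := g0 n
      nlinarith
    have h3 : (0 : ℤ) ≤ (if n + d = 0 then 1 else 0) := by split_ifs <;> norm_num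
    linarith

theorem Q_monomial (k : ℕ) (c : ℕ) :
    Q (((c : ℤ) : PowerSeries ℤ) * PowerSeries.X ^ k) := by
  have hco : ∀ n, PowerSeries.coeff n (((c : ℤ) : PowerSeries ℤ) * PowerSeries.X ^ k) =
      if n = k then (c : ℤ) else 0 := by
    intro n
    have e : (((c : ℤ) : PowerSeries ℤ)) = PowerSeries.C (c : ℤ) := by simp
    rw [e, PowerSeries.coeff_C_mul, PowerSeries.coeff_X_pow]
    split_ifs <;> simp
  refine ⟨fun n => ?_, 1, k + 1, le_rfl, ?_⟩
  · rw [hco]; split_ifs <;> simp
  · intro n hn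
    rw [hco, hco, if_neg (by omega), if_neg (by omega)]

/-! ### The total degree specialization -/

/-- Integer series in two commuting variables. -/
abbrev R2 : Type := MvPowerSeries (Fin 2) ℤ

/-- Natural series as integer series. -/
noncomputable def cc : MvPowerSeries (Fin 2) ℕ →+* R2 := MvPowerSeries.map (Nat.castRingHom ℤ)

theorem coeff_cc (S : MvPowerSeries (Fin 2) ℕ) (m : Fin 2 →₀ ℕ) :
    MvPowerSeries.coeff m (cc S) = ((MvPowerSeries.coeff m S : ℕ) : ℤ) := by
  simp [cc, MvPowerSeries.coeff_map]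

theorem hasT : MvPowerSeries.HasSubst (fun _ : Fin 2 => (PowerSeries.X : PowerSeries ℤ)) :=
  MvPowerSeries.hasSubst_of_constantCoeff_zero fun _ => PowerSeries.constantCoeff_X

/-- The substitution of one variable for both variables. -/
noncomputable def tt : R2 →ₐ[ℤ] PowerSeries ℤ := MvPowerSeries.substAlgHom hasT

theorem tt_X (i : Fin 2) : tt (MvPowerSeries.X i) = PowerSeries.X :=
  MvPowerSeries.substAlgHom_X hasT i

theorem Q_fin (S : MvPowerSeries (Fin 2) ℕ)
    (hS : {m : Fin 2 →₀ ℕ | MvPowerSeries.coeff m S ≠ 0}.Finite) : Q (tt (cc S)) := by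
  classical
  have h : S = ∑ m ∈ hS.toFinset, MvPowerSeries.monomial m (MvPowerSeries.coeff m S) := by
    ext n
    rw [map_sum]
    simp only [MvPowerSeries.coeff_monomial]
    by_cases hn : MvPowerSeries.coeff n S = 0
    · rw [hn]
      symm
      apply Finset.sum_eq_zero
      intro m _
      split_ifs with h
      · rw [← h]; exact hn
      · rfl
    · rw [Finset.sum_ite_eq (hS.toFinset) n (fun m => MvPowerSeries.coeff m S), if_pos]
      simpa using hn
  rw [h, map_sum, map_sum]
  apply Finset.sum_induction _ Q (fun a b => Q_add) Q_zero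
  intro m _
  have e : cc (MvPowerSeries.monomial m (MvPowerSeries.coeff m S)) =
      MvPowerSeries.monomial m ((MvPowerSeries.coeff m S : ℕ) : ℤ) := by
    ext n
    rw [coeff_cc, MvPowerSeries.coeff_monomial, MvPowerSeries.coeff_monomial]
    split_ifs <;> simp
  rw [e]
  have e2 : tt (MvPowerSeries.monomial m ((MvPowerSeries.coeff m S : ℕ) : ℤ)) =
      (((MvPowerSeries.coeff m S : ℕ) : ℤ) : PowerSeries ℤ) *
        PowerSeries.X ^ (m 0 + m 1) := by
    have := MvPowerSeries.substAlgHom_monomial hasT m ((MvPowerSeries.coeff m S : ℕ) : ℤ)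
    rw [tt, this]
    rw [Finsupp.prod_fintype _ _ (fun i => pow_zero _), Fin.prod_univ_two, ← pow_add]
    simp
  rw [e2]
  exact Q_monomial _ _

theorem Q_of_rat (S : MvPowerSeries (Fin 2) ℕ) (h : IsRat S) : Q (tt (cc S)) := by
  induction h with
  | fin S hS => exact Q_fin S hS
  | add S T _ _ ih1 ih2 => rw [map_add, map_add]; exact Q_add ih1 ih2
  | mul S T _ _ ih1 ih2 => rw [map_mul, map_mul]; exact Q_mul ih1 ih2
  | star S _ h0 ih =>
    refine Q_star ih ?_ (g := tt (cc (star S))) ?_
    · have h1 : MvPowerSeries.constantCoeff (cc S) = 0 := by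
        have := coeff_cc S 0
        rw [MvPowerSeries.coeff_zero_eq_constantCoeff_apply,
          MvPowerSeries.coeff_zero_eq_constantCoeff_apply, h0] at this
        simpa using this
      have h2 := MvPowerSeries.constantCoeff_subst_eq_zero (R := ℤ) hasT
        (fun _ => PowerSeries.constantCoeff_X) h1
      have h3 : tt (cc S) = MvPowerSeries.subst (fun _ : Fin 2 => (PowerSeries.X : PowerSeries ℤ))
        (cc S) := by rw [tt, MvPowerSeries.coe_substAlgHom]
      rw [PowerSeries.coeff_zero_eq_constantCoeff_apply, h3]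
      exact h2
    · conv_lhs => rw [star_eq h0]
      rw [map_add, map_add, map_mul, map_mul, map_one, map_one]

/-! ### Words and Parikh vectors -/

theorem parikh_nil {σ : Type} : parikh ([] : List σ) = 0 := rfl

theorem parikh_cons {σ : Type} (a : σ) (w : List σ) :
    parikh (a :: w) = Finsupp.single a 1 + parikh w := by
  simp [parikh]

theorem degree_parikh {σ : Type} (w : List σ) : Finsupp.degree (parikh w) = w.length := by
  induction w with
  | nil => simp [parikh_nil]
  | cons a w ih =>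
    rw [parikh_cons, map_add, ih, Finsupp.degree_single, List.length_cons, add_comm]

theorem words_finite {σ : Type} [Finite σ] (m : σ →₀ ℕ) : {w : List σ | parikh w = m}.Finite := by
  apply (List.finite_length_eq σ (Finsupp.degree m)).subset
  intro w hw
  have hw' : parikh w = m := hw
  show w.length = _
  rw [← hw', degree_parikh]

theorem coeff_chi {σ : Type} (L : Set (List σ)) (m : σ →₀ ℕ) :
    MvPowerSeries.coeff m (chi L) = Set.ncard {w | w ∈ L ∧ parikh w = m} := rfl

theorem chi_univ_eq : chi (Set.univ : Set (List (Fin 2))) =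
    1 + (MvPowerSeries.X 0 + MvPowerSeries.X 1) * chi Set.univ := by
  classical
  ext m
  rw [map_add, add_mul, map_add, MvPowerSeries.X_def, MvPowerSeries.X_def,
    MvPowerSeries.coeff_monomial_mul, MvPowerSeries.coeff_monomial_mul, MvPowerSeries.coeff_one]
  have hsplit : {w : List (Fin 2) | w ∈ Set.univ ∧ parikh w = m} =
      {w | w = [] ∧ m = 0} ∪ ({w | ∃ v, w = 0 :: v ∧ Finsupp.single 0 1 + parikh v = m} ∪
        {w | ∃ v, w = 1 :: v ∧ Finsupp.single 1 1 + parikh v = m}) := by
    ext w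
    simp only [Set.mem_univ, true_and, Set.mem_ofPred_eq, Set.mem_union]
    rcases w with _ | ⟨a, v⟩
    · rw [parikh_nil]
      constructor
      · intro h; exact Or.inl ⟨rfl, h.symm⟩
      · rintro (⟨-, h⟩ | ⟨v, h, -⟩ | ⟨v, h, -⟩)
        · exact h.symm
        · simp at h
        · simp at h
    · rw [parikh_cons]
      have ha : a = 0 ∨ a = 1 := by
        fin_cases a <;> simp
      rcases ha with rfl | rfl
      · simp
      · simp
  have hcls : ∀ a : Fin 2, Set.ncard {w : List (Fin 2) | ∃ v, w = a :: v ∧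
      Finsupp.single a 1 + parikh v = m} = if Finsupp.single a 1 ≤ m then
        1 * MvPowerSeries.coeff (m - Finsupp.single a 1) (chi Set.univ) else 0 := by
    intro a
    have himg : {w : List (Fin 2) | ∃ v, w = a :: v ∧ Finsupp.single a 1 + parikh v = m} =
        (fun v => a :: v) '' {v | Finsupp.single a 1 + parikh v = m} := by
      ext w
      constructor
      · rintro ⟨v, rfl, hv⟩; exact ⟨v, hv, rfl⟩
      · rintro ⟨v, hv, rfl⟩; exact ⟨v, rfl, hv⟩
    rw [himg, Set.ncard_image_of_injective _ (fun u v h => by simpa using h)]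
    split_ifs with h
    · rw [one_mul, coeff_chi]
      congr 1
      ext v
      simp only [Set.mem_ofPred_eq, Set.mem_univ, true_and]
      constructor
      · intro hv
        rw [← hv, add_tsub_cancel_left]
      · intro hv
        rw [hv, add_tsub_cancel_of_le h]
    · have : {v : List (Fin 2) | Finsupp.single a 1 + parikh v = m} = ∅ := by
        ext v
        simp only [Set.mem_ofPred_eq, Set.mem_empty_iff_false, iff_false]
        intro hv
        apply h
        rw [← hv]
        exact le_self_add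
      rw [this, Set.ncard_empty]
  have hfin : ∀ a : Fin 2, {w : List (Fin 2) | ∃ v, w = a :: v ∧
      Finsupp.single a 1 + parikh v = m}.Finite := by
    intro a
    apply (words_finite m).subset
    rintro w ⟨v, rfl, hv⟩
    show parikh (a :: v) = m
    rw [parikh_cons, hv]
  have hfin0 : {w : List (Fin 2) | w = [] ∧ m = 0}.Finite := by
    apply (Set.finite_singleton ([] : List (Fin 2))).subset
    rintro w ⟨rfl, -⟩
    rfl
  rw [coeff_chi, hsplit, Set.ncard_union_eq _ hfin0 ((hfin 0).union (hfin 1)),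
    Set.ncard_union_eq _ (hfin 0) (hfin 1), hcls 0, hcls 1]
  · congr 1
    split_ifs with h
    · have : {w : List (Fin 2) | w = [] ∧ m = 0} = {[]} := by
        ext w; simp [h]
      rw [this, Set.ncard_singleton]
    · have : {w : List (Fin 2) | w = [] ∧ m = 0} = ∅ := by
        ext w; simp [h]
      rw [this, Set.ncard_empty]
  · rw [Set.disjoint_left]
    rintro w ⟨v, rfl, -⟩ ⟨v', hv', -⟩
    simp at hv'
  · rw [Set.disjoint_left]
    rintro w ⟨rfl, -⟩ (⟨v', hv', -⟩ | ⟨v', hv', -⟩)
    · simp at hv'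
    · simp at hv'

theorem chi_compl (L : Set (List (Fin 2))) : chi L + chi Lᶜ = chi Set.univ := by
  ext m
  have hd : Disjoint {w : List (Fin 2) | w ∈ L ∧ parikh w = m}
      {w : List (Fin 2) | w ∈ Lᶜ ∧ parikh w = m} := by
    rw [Set.disjoint_left]
    rintro w ⟨h, -⟩ ⟨h', -⟩
    exact h' h
  rw [map_add, coeff_chi, coeff_chi, coeff_chi, ← Set.ncard_union_eq hd
    ((words_finite m).subset fun w hw => hw.2) ((words_finite m).subset fun w hw => hw.2)]
  congr 1
  ext w
  simp only [Set.mem_union, Set.mem_ofPred_eq, Set.mem_compl_iff, Set.mem_univ, true_and]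
  tauto

theorem exists_lang (S : MvPowerSeries (Fin 2) ℕ)
    (h : ∀ m, MvPowerSeries.coeff m S ≤ MvPowerSeries.coeff m (chi Set.univ)) :
    ∃ L : Set (List (Fin 2)), chi L = S := by
  classical
  have hex : ∀ m : Fin 2 →₀ ℕ, ∃ A : Finset (List (Fin 2)), (∀ w ∈ A, parikh w = m) ∧
      A.card = MvPowerSeries.coeff m S := by
    intro m
    have h1 := h m
    rw [coeff_chi] at h1
    have h2 : {w : List (Fin 2) | w ∈ Set.univ ∧ parikh w = m} = {w | parikh w = m} := by
      ext w; simp
    rw [h2, Set.ncard_eq_toFinset_card _ (words_finite m)] at h1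
    obtain ⟨A, hA, hc⟩ := Finset.exists_subset_card_eq h1
    refine ⟨A, fun w hw => ?_, hc⟩
    simpa using hA hw
  choose A hA hc using hex
  refine ⟨{w | w ∈ A (parikh w)}, ?_⟩
  ext m
  rw [coeff_chi, ← hc m]
  have : {w : List (Fin 2) | w ∈ {w | w ∈ A (parikh w)} ∧ parikh w = m} = (A m : Set _) := by
    ext w
    simp only [Set.mem_ofPred_eq, Finset.mem_coe]
    constructor
    · rintro ⟨h1, rfl⟩; exact h1
    · intro h1
      have := hA m w h1
      exact ⟨by rw [this]; exact h1, this⟩
  rw [this, Set.ncard_coe_finset]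

/-! ### The series -/

/-- `x = a + b`. -/
noncomputable def xx : MvPowerSeries (Fin 2) ℕ := MvPowerSeries.X 0 + MvPowerSeries.X 1

/-- `y = a²b³`. -/
noncomputable def yy : MvPowerSeries (Fin 2) ℕ := MvPowerSeries.X 0 ^ 2 * MvPowerSeries.X 1 ^ 3

/-- `r = x⁵ - 10 y`. -/
noncomputable def rr : MvPowerSeries (Fin 2) ℕ :=
  MvPowerSeries.X 0 ^ 5 + 5 * (MvPowerSeries.X 0 ^ 4 * MvPowerSeries.X 1) +
    10 * (MvPowerSeries.X 0 ^ 3 * MvPowerSeries.X 1 ^ 2) +
    5 * (MvPowerSeries.X 0 * MvPowerSeries.X 1 ^ 4) + MvPowerSeries.X 1 ^ 5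

theorem xx_pow : xx ^ 5 = 10 * yy + rr := by
  unfold xx yy rr
  ring

/-- The series `(10y)* - D`. -/
noncomputable def EE : MvPowerSeries (Fin 2) ℕ :=
  1 + yy * (32 * (yy * (star (10 * yy) * star (2 * yy))) +
    18 * (yy * (star (10 * yy) * star (4 * yy))) + 3 * star (10 * yy) +
    (13 * yy + 44 * yy ^ 2) * star (yy + 8 * yy ^ 2 + 16 * yy ^ 3))

/-- The rational series `x* - D`. -/
noncomputable def SS : MvPowerSeries (Fin 2) ℕ :=
  (xx + xx ^ 2 + xx ^ 3 + xx ^ 4) * star (xx ^ 5) + star (10 * yy) * (rr * star (xx ^ 5)) + EE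

theorem rat_X (i : Fin 2) : IsRat (MvPowerSeries.X i : MvPowerSeries (Fin 2) ℕ) := by
  classical
  apply IsRat.fin
  apply (Set.finite_singleton (Finsupp.single i 1)).subset
  intro m hm
  simp only [Set.mem_ofPred_eq, MvPowerSeries.coeff_X] at hm
  by_contra h
  exact hm (if_neg h)

theorem rat_nat (c : ℕ) : IsRat ((c : ℕ) : MvPowerSeries (Fin 2) ℕ) := by
  classical
  apply IsRat.fin
  apply (Set.finite_singleton (0 : Fin 2 →₀ ℕ)).subset
  intro m hm
  by_contra h
  apply hm
  have : ((c : ℕ) : MvPowerSeries (Fin 2) ℕ) = MvPowerSeries.C c := by simp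
  rw [this, MvPowerSeries.coeff_C, if_neg (by simpa using h)]

theorem rat_one : IsRat (1 : MvPowerSeries (Fin 2) ℕ) := by
  have := rat_nat 1
  rwa [Nat.cast_one] at this

theorem rat_ofNat (c : ℕ) [c.AtLeastTwo] : IsRat (OfNat.ofNat c : MvPowerSeries (Fin 2) ℕ) := by
  exact rat_nat (OfNat.ofNat c)

theorem rat_pow {S : MvPowerSeries (Fin 2) ℕ} (h : IsRat S) (n : ℕ) : IsRat (S ^ n) := by
  induction n with
  | zero => rw [pow_zero]; exact rat_one
  | succ n ih => rw [pow_succ]; exact IsRat.mul _ _ ih h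

theorem rat_xx : IsRat xx := IsRat.add _ _ (rat_X 0) (rat_X 1)

theorem rat_yy : IsRat yy := IsRat.mul _ _ (rat_pow (rat_X 0) 2) (rat_pow (rat_X 1) 3)

theorem cX (i : Fin 2) : MvPowerSeries.constantCoeff (MvPowerSeries.X i :
    MvPowerSeries (Fin 2) ℕ) = 0 := MvPowerSeries.constantCoeff_X i

theorem c_yy : MvPowerSeries.constantCoeff yy = 0 := by
  unfold yy
  rw [map_mul, map_pow, cX]
  simp

theorem c_xx : MvPowerSeries.constantCoeff xx = 0 := by
  unfold xx
  rw [map_add, cX, cX]

theorem c_mul (c : ℕ) [c.AtLeastTwo] :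
    MvPowerSeries.constantCoeff ((OfNat.ofNat c : MvPowerSeries (Fin 2) ℕ) * yy) = 0 := by
  rw [map_mul, c_yy, mul_zero]

theorem c_pow : MvPowerSeries.constantCoeff (xx ^ 5) = 0 := by
  rw [map_pow, c_xx]; simp

theorem c_h : MvPowerSeries.constantCoeff (yy + 8 * yy ^ 2 + 16 * yy ^ 3) = 0 := by
  simp [c_yy]

theorem rat_SS : IsRat SS := by
  have s10 : IsRat (star (10 * yy)) :=
    IsRat.star _ (IsRat.mul _ _ (rat_ofNat 10) rat_yy) (c_mul 10)
  have s2 : IsRat (star (2 * yy)) :=
    IsRat.star _ (IsRat.mul _ _ (rat_ofNat 2) rat_yy) (c_mul 2)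
  have s4 : IsRat (star (4 * yy)) :=
    IsRat.star _ (IsRat.mul _ _ (rat_ofNat 4) rat_yy) (c_mul 4)
  have s5 : IsRat (star (xx ^ 5)) := IsRat.star _ (rat_pow rat_xx 5) c_pow
  have sh : IsRat (star (yy + 8 * yy ^ 2 + 16 * yy ^ 3)) :=
    IsRat.star _ (IsRat.add _ _ (IsRat.add _ _ rat_yy (IsRat.mul _ _ (rat_ofNat 8)
      (rat_pow rat_yy 2))) (IsRat.mul _ _ (rat_ofNat 16) (rat_pow rat_yy 3))) c_h
  have hr : IsRat rr :=
    IsRat.add _ _ (IsRat.add _ _ (IsRat.add _ _ (IsRat.add _ _ (rat_pow (rat_X 0) 5)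
      (IsRat.mul _ _ (rat_ofNat 5) (IsRat.mul _ _ (rat_pow (rat_X 0) 4) (rat_X 1))))
      (IsRat.mul _ _ (rat_ofNat 10) (IsRat.mul _ _ (rat_pow (rat_X 0) 3) (rat_pow (rat_X 1) 2))))
      (IsRat.mul _ _ (rat_ofNat 5) (IsRat.mul _ _ (rat_X 0) (rat_pow (rat_X 1) 4))))
      (rat_pow (rat_X 1) 5)
  have hE : IsRat EE :=
    IsRat.add _ _ rat_one (IsRat.mul _ _ rat_yy (IsRat.add _ _ (IsRat.add _ _ (IsRat.add _ _
      (IsRat.mul _ _ (rat_ofNat 32) (IsRat.mul _ _ rat_yy (IsRat.mul _ _ s10 s2)))
      (IsRat.mul _ _ (rat_ofNat 18) (IsRat.mul _ _ rat_yy (IsRat.mul _ _ s10 s4))))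
      (IsRat.mul _ _ (rat_ofNat 3) s10))
      (IsRat.mul _ _ (IsRat.add _ _ (IsRat.mul _ _ (rat_ofNat 13) rat_yy)
        (IsRat.mul _ _ (rat_ofNat 44) (rat_pow rat_yy 2))) sh)))
  exact IsRat.add _ _ (IsRat.add _ _ (IsRat.mul _ _ (IsRat.add _ _ (IsRat.add _ _
    (IsRat.add _ _ rat_xx (rat_pow rat_xx 2)) (rat_pow rat_xx 3)) (rat_pow rat_xx 4)) s5)
    (IsRat.mul _ _ s10 (IsRat.mul _ _ hr s5))) hE

/-- The one-variable series `∑ 7 Uₙ² Xⁿ`. -/
noncomputable def dd : PowerSeries ℤ := PowerSeries.mk fun n => 7 * (U n) ^ 2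

theorem dd_eq : (1 - 2 * PowerSeries.X) * (1 + 3 * PowerSeries.X + 4 * PowerSeries.X ^ 2) * dd =
    7 * PowerSeries.X + 14 * PowerSeries.X ^ 2 := by
  have hX : ∀ (f : PowerSeries ℤ) (n : ℕ), PowerSeries.coeff (n + 1) (f * PowerSeries.X) =
      PowerSeries.coeff n f := fun f n => PowerSeries.coeff_succ_mul_X n f
  have hX0 : ∀ f : PowerSeries ℤ, PowerSeries.coeff 0 (f * PowerSeries.X) = 0 := by
    intro f; simp
  have e : (1 - 2 * PowerSeries.X) * (1 + 3 * PowerSeries.X + 4 * PowerSeries.X ^ 2) * dd =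
      dd + dd * PowerSeries.X - PowerSeries.C 2 * (dd * PowerSeries.X * PowerSeries.X) -
        PowerSeries.C 8 * (dd * PowerSeries.X * PowerSeries.X * PowerSeries.X) := by
    have c2 : (PowerSeries.C 2 : PowerSeries ℤ) = 2 := by simp
    have c8 : (PowerSeries.C 8 : PowerSeries ℤ) = 8 := by simp
    rw [c2, c8]; ring
  have e' : (7 * PowerSeries.X + 14 * PowerSeries.X ^ 2 : PowerSeries ℤ) =
      PowerSeries.C 7 * (1 * PowerSeries.X) +
        PowerSeries.C 14 * (1 * PowerSeries.X * PowerSeries.X) := by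
    have c7 : (PowerSeries.C 7 : PowerSeries ℤ) = 7 := by simp
    have c14 : (PowerSeries.C 14 : PowerSeries ℤ) = 14 := by simp
    rw [c7, c14]; ring
  rw [e, e']
  have hd : ∀ n, PowerSeries.coeff n dd = 7 * (U n) ^ 2 := fun n => PowerSeries.coeff_mk _ _
  ext n
  simp only [map_sub, map_add, PowerSeries.coeff_C_mul]
  rcases n with _ | _ | _ | n
  · simp only [hX0, hd]; simp [U]
  · simp only [hX, hX0, hd]; simp [U]
  · simp only [hX, hX0, hd]; simp [U, PowerSeries.coeff_one]
  · simp only [hX, hX0, hd]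
    rw [PowerSeries.coeff_one, PowerSeries.coeff_one, if_neg (by omega), if_neg (by omega)]
    rw [U_succ (n + 1), U_succ n]
    ring

/-- `y` as an integer series. -/
noncomputable def Y : R2 := cc yy

theorem Y_eq : Y = MvPowerSeries.X 0 ^ 2 * MvPowerSeries.X 1 ^ 3 := by
  unfold Y yy cc
  rw [map_mul, map_pow, map_pow, MvPowerSeries.map_X, MvPowerSeries.map_X]

theorem hasY : PowerSeries.HasSubst Y := by
  apply PowerSeries.HasSubst.of_constantCoeff_zero
  rw [Y_eq]
  simp

/-- The substitution of `y` for the variable. -/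
noncomputable def sb : PowerSeries ℤ →ₐ[ℤ] R2 := PowerSeries.substAlgHom hasY

theorem sb_X : sb PowerSeries.X = Y := PowerSeries.substAlgHom_X hasY

theorem sb_dd_eq : (1 - 2 * Y) * (1 + 3 * Y + 4 * Y ^ 2) * sb dd = 7 * Y + 14 * Y ^ 2 := by
  have h := congrArg sb dd_eq
  simp only [map_mul, map_sub, map_add, map_pow, map_one, map_ofNat, sb_X] at h
  exact h

theorem sb_nonneg (m : Fin 2 →₀ ℕ) : 0 ≤ MvPowerSeries.coeff m (sb dd) := by
  have h : sb dd = PowerSeries.subst Y dd := by rw [sb, PowerSeries.coe_substAlgHom]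
  rw [h, PowerSeries.coeff_subst hasY]
  apply finsum_nonneg
  intro d
  have h2 : MvPowerSeries.coeff m (Y ^ d) = ((MvPowerSeries.coeff m (yy ^ d) : ℕ) : ℤ) := by
    rw [Y, ← map_pow, coeff_cc]
  rw [h2, smul_eq_mul, dd, PowerSeries.coeff_mk]
  positivity

theorem cc_star {S : MvPowerSeries (Fin 2) ℕ} (h : MvPowerSeries.constantCoeff S = 0) :
    cc (star S) = 1 + cc S * cc (star S) := by
  conv_lhs => rw [star_eq h]
  rw [map_add, map_one, map_mul]

theorem constY : MvPowerSeries.constantCoeff Y = 0 := by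
  rw [Y_eq]; simp

theorem ne_zero_of_const {f : R2} (h : MvPowerSeries.constantCoeff f ≠ 0) : f ≠ 0 := by
  rintro rfl
  exact h (map_zero _)

theorem main_identity : cc (chi Set.univ) = cc SS + sb dd := by
  -- the relevant elements and equations
  have eZ : cc (chi Set.univ) = 1 + cc xx * cc (chi Set.univ) := by
    conv_lhs => rw [chi_univ_eq]
    rw [map_add, map_one, map_mul]
    rfl
  have e5 := cc_star c_pow
  have e10 := cc_star (c_mul 10)
  have e2 := cc_star (c_mul 2)
  have e4 := cc_star (c_mul 4)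
  have eh := cc_star c_h
  have hxy : cc xx ^ 5 = 10 * Y + cc rr := by
    rw [← map_pow, xx_pow, map_add, map_mul, map_ofNat]
    rfl
  have hSS : cc SS = (cc xx + cc xx ^ 2 + cc xx ^ 3 + cc xx ^ 4) * cc (star (xx ^ 5)) +
      cc (star (10 * yy)) * (cc rr * cc (star (xx ^ 5))) +
      (1 + Y * (32 * (Y * (cc (star (10 * yy)) * cc (star (2 * yy)))) +
        18 * (Y * (cc (star (10 * yy)) * cc (star (4 * yy)))) + 3 * cc (star (10 * yy)) +
        (13 * Y + 44 * Y ^ 2) * cc (star (yy + 8 * yy ^ 2 + 16 * yy ^ 3)))) := by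
    simp only [SS, EE, Y, map_add, map_mul, map_pow, map_one, map_ofNat]
  simp only [map_add, map_mul, map_pow, map_ofNat] at e5 e10 e2 e4 eh
  rw [hSS]
  have hdd := sb_dd_eq
  change _ = _ + (10 : R2) * Y * _ at e10
  change _ = _ + (2 : R2) * Y * _ at e2
  change _ = _ + (4 : R2) * Y * _ at e4
  change _ = _ + (Y + 8 * Y ^ 2 + 16 * Y ^ 3) * _ at eh
  generalize cc (chi Set.univ) = Z at *
  generalize cc (star (xx ^ 5)) = Z5 at *
  generalize cc (star (10 * yy)) = G10 at *
  generalize cc (star (2 * yy)) = G2 at *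
  generalize cc (star (4 * yy)) = G4 at *
  generalize cc (star (yy + 8 * yy ^ 2 + 16 * yy ^ 3)) = H at *
  have hx0 : MvPowerSeries.constantCoeff (cc xx) = 0 := by
    have := coeff_cc xx 0
    rw [MvPowerSeries.coeff_zero_eq_constantCoeff_apply,
      MvPowerSeries.coeff_zero_eq_constantCoeff_apply, c_xx] at this
    simpa using this
  generalize cc xx = x at *
  generalize cc rr = r at *
  have hcY := constY
  generalize sb dd = D at *
  generalize Y = y at *
  -- step 1
  have h1 : Z = (1 + x + x ^ 2 + x ^ 3 + x ^ 4) * Z5 := by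
    have hne : (1 - x : R2) ≠ 0 := ne_zero_of_const (by simp [hx0])
    apply mul_left_cancel₀ hne
    linear_combination eZ - e5
  -- step 2
  have hne10 : (1 - 10 * y : R2) ≠ 0 := ne_zero_of_const (by simp [hcY])
  have h2 : Z5 = G10 + G10 * (r * Z5) := by
    apply mul_left_cancel₀ hne10
    have e5' : Z5 = 1 + (10 * y + r) * Z5 := by rw [← hxy]; exact e5
    linear_combination e5' - (1 + r * Z5) * e10
  -- step 3
  have h3 : 8 * (y * (G10 * G2)) = G10 - G2 := by
    linear_combination -(G2 * e10) + G10 * e2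
  have h4 : 6 * (y * (G10 * G4)) = G10 - G4 := by
    linear_combination -(G4 * e10) + G10 * e4
  -- step 4
  have hneK : ((1 - 2 * y) * (1 - 4 * y) * (1 + 3 * y + 4 * y ^ 2) : R2) ≠ 0 :=
    ne_zero_of_const (by simp [hcY])
  have h5 : 4 * (y * G2) + 3 * (y * G4) - y * (13 * y + 44 * y ^ 2) * H = D := by
    apply mul_left_cancel₀ hneK
    linear_combination 4 * y * (1 - 4 * y) * (1 + 3 * y + 4 * y ^ 2) * e2 +
      3 * y * (1 - 2 * y) * (1 + 3 * y + 4 * y ^ 2) * e4 -
      (1 - 2 * y) * y * (13 * y + 44 * y ^ 2) * eh - (1 - 4 * y) * hdd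
  rw [h1]
  linear_combination h2 - 4 * y * h3 - 3 * y * h4 + h5 + e10

/-- Substituting one variable for both variables in `∑ 7 Uₙ² yⁿ`. -/
theorem tt_sb : tt (sb dd) = PowerSeries.subst (PowerSeries.X ^ 5 : PowerSeries ℤ) dd := by
  have hs : PowerSeries.HasSubst (PowerSeries.X ^ 5 : PowerSeries ℤ) :=
    PowerSeries.HasSubst.X_pow (by norm_num)
  have h1 := congrArg tt sb_dd_eq
  have htY : tt Y = PowerSeries.X ^ 5 := by
    rw [Y_eq, map_mul, map_pow, map_pow, tt_X, tt_X, ← pow_add]
  simp only [map_mul, map_sub, map_add, map_pow, map_one, map_ofNat, htY] at h1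
  have h2 := congrArg (PowerSeries.substAlgHom (R := ℤ) hs) dd_eq
  have hX5 : PowerSeries.substAlgHom (R := ℤ) hs PowerSeries.X = PowerSeries.X ^ 5 :=
    PowerSeries.substAlgHom_X hs
  simp only [map_mul, map_sub, map_add, map_pow, map_one, map_ofNat, hX5] at h2
  rw [PowerSeries.coe_substAlgHom] at h2
  have hne : ((1 - 2 * PowerSeries.X ^ 5) * (1 + 3 * PowerSeries.X ^ 5 +
      4 * (PowerSeries.X ^ 5) ^ 2) : PowerSeries ℤ) ≠ 0 := by
    intro h
    have := congrArg (PowerSeries.constantCoeff (R := ℤ)) h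
    simp at this
  apply mul_left_cancel₀ hne
  exact h1.trans h2.symm

theorem not_Q : ¬ Q (PowerSeries.subst (PowerSeries.X ^ 5 : PowerSeries ℤ) dd) := by
  rintro ⟨-, p, n₀, hp, h⟩
  have hco : ∀ n, PowerSeries.coeff n (PowerSeries.subst (PowerSeries.X ^ 5 : PowerSeries ℤ) dd) =
      if 5 ∣ n then 7 * (U (n / 5)) ^ 2 else 0 := by
    intro n
    rw [PowerSeries.coeff_subst_X_pow (by norm_num)]
    simp [dd]
  -- the period is divisible by five
  have h5 : 5 ∣ p := by
    by_contra hnd
    have h1 := h (5 * (n₀ + 1)) (by omega)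
    rw [hco, hco, if_pos (by omega), if_neg (by omega)] at h1
    have h2 : U (5 * (n₀ + 1) / 5) ≠ 0 := by
      rw [Nat.mul_div_cancel_left _ (by norm_num)]
      exact U_ne n₀
    have h3 : 0 < U (5 * (n₀ + 1) / 5) ^ 2 := by positivity
    omega
  obtain ⟨q, rfl⟩ := h5
  obtain ⟨m, hm, hlt⟩ := violation q (by omega) n₀
  have h1 := h (5 * m) (by omega)
  rw [hco, hco, if_pos (by omega), if_pos (by omega)] at h1
  have e1 : 5 * m / 5 = m := Nat.mul_div_cancel_left _ (by norm_num)
  have e2 : (5 * m + 5 * q) / 5 = m + q := by omega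
  rw [e1, e2] at h1
  omega

/-- There is a language over a two-letter alphabet whose characteristic series in commutative
variables is rational while that of its complement is not. -/
theorem result : ∃ L : Set (List (Fin 2)), IsRat (chi L) ∧ ¬ IsRat (chi Lᶜ) := by
  obtain ⟨L, hL⟩ := exists_lang SS (by
    intro m
    have h := congrArg (MvPowerSeries.coeff m) main_identity
    rw [map_add, coeff_cc, coeff_cc] at h
    have h2 := sb_nonneg m
    have h3 : ((MvPowerSeries.coeff m SS : ℕ) : ℤ) ≤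
        ((MvPowerSeries.coeff m (chi Set.univ) : ℕ) : ℤ) := by linarith
    exact_mod_cast h3)
  refine ⟨L, by rw [hL]; exact rat_SS, ?_⟩
  intro hrat
  have hQ := Q_of_rat _ hrat
  have hsum := congrArg cc (chi_compl L)
  rw [map_add, hL, main_identity] at hsum
  have : cc (chi Lᶜ) = sb dd := add_left_cancel hsum
  rw [this, tt_sb] at hQ
  exact not_Q hQ

end Pool.Agent.Results.MP_2e66a2_lc.ComplementNotRational
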